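import Mathlib

/-!
# The normaliser of mixed rows (T8): definitions (helper56)

Rows at `t j` (`t = i x`), `phi = ph`, `phs = ph (. + 3 pi i / 8)`, `iq t = 1 / Q_t`, `MM t` the explicit
inverse of `ph (t i - t j)`; the space `E = L^2(om)` on the half line, `xx u = exp (-i k u)` split into the
even part and the odd part over `k`, `yy w` the functional of `exp (i k w)`.
-/

set_option autoImplicit false

noncomputable section

open MeasureTheory Complex

namespace IT8

/-- `(2/3) tanh (4u/3)` -/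
def ph (u : ℂ) : ℂ := 2 / 3 * (sinh (4 * u / 3) / cosh (4 * u / 3))

/-- `(2/3) coth (4u/3)` -/
def phs (u : ℂ) : ℂ := 2 / 3 * (cosh (4 * u / 3) / sinh (4 * u / 3))

/-- `1 / Q` -/
def iq {n : ℕ} (t : Fin n → ℂ) (u : ℂ) : ℂ :=
  ∏ i, cosh (4 * (u - t i) / 3) / sinh (4 * (u - t i) / 3)

/-- residue of `iq t` at `t i` -/
def rr {n : ℕ} (t : Fin n → ℂ) (i : Fin n) : ℂ :=
  3 / 4 * ∏ j ∈ Finset.univ.erase i, cosh (4 * (t i - t j) / 3) / sinh (4 * (t i - t j) / 3)

/-- the inverse of the matrix `ph (t i - t j)` -/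
def MM {n : ℕ} (t : Fin n → ℂ) (i j : Fin n) : ℂ := 4 * rr t i * rr t j * ph (t i - t j)

/-- generic rows -/
structure Gen {n : ℕ} (t : Fin n → ℂ) : Prop where
  sn : ∀ i j, i ≠ j → sinh (4 * (t i - t j) / 3) ≠ 0
  cn : ∀ i j, cosh (4 * (t i - t j) / 3) ≠ 0

/-! ### the space -/

/-- the weight -/
def om (k : ℝ) : ℝ := k / (4 * Real.sinh (3 * Real.pi * k / 8) * Real.cosh (Real.pi * k / 4))

/-- the measure on the half line -/
def mu : Measure ℝ := (volume.restrict (Set.Ioi 0)).withDensity fun k => ENNReal.ofReal (om k)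

/-- `L^2` -/
abbrev E : Type := Lp ℂ 2 mu

open Classical in
/-- `cos (k u)` -/
def xE (u : ℂ) : E :=
  if h : MemLp (fun k : ℝ => Complex.cos (k * u)) 2 mu then h.toLp _ else 0

open Classical in
/-- `sin (k u) / k` -/
def xO (u : ℂ) : E :=
  if h : MemLp (fun k : ℝ => Complex.sin (k * u) / k) 2 mu then h.toLp _ else 0

/-- `exp (-i k u)` -/
def xx (u : ℂ) : E × E := (xE u, (-I) • xO u)

/-- the functional of `exp (i k w)`: `2 (∫ cos (k w) G + i ∫ sin (k w) / k F)` -/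
def yy (w : ℂ) : (E × E) →L[ℂ] ℂ :=
  (2 : ℂ) • ((innerSL ℂ (xE ((starRingEnd ℂ) w))).comp (ContinuousLinearMap.snd ℂ E E) +
    I • (innerSL ℂ (xO ((starRingEnd ℂ) w))).comp (ContinuousLinearMap.fst ℂ E E))

/-- `A - ph` -/
def BB (u : ℂ) : ℂ := sinh (2 * u) / (cosh (2 * u) + Real.sqrt 2 / 2) - ph u

end IT8

end
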