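import Pool.Agent.IT8.Rows
import Pool.Agent.T8.LatH
import Pool.Agent.TL8.Pos

/-!
# The normaliser of mixed rows in all directions (helper71, ISO T8)

`T8`: the scalar of `a` rows at `c` and `b` rows at `c + l`, squared and divided by the bulk term, is
`A (a² + a b + b²)^(5/48) (1 + O((a² + a b + b²)^(-1/4)))`, with ONE constant `A > 0` for all `a`, `b`.
The lattice equation is `IT8/Lattice`, the positivity `TL8/Pos` (helper22), the lattice lemma `T8/LatH`
(helper76), the even axis `IT8/Tau`.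
-/

set_option autoImplicit false

namespace Pool.Agent.IT8

open Finset Real
open Pool.Agent.NUBD
open Pool.Agent.EXL.Fm (lam)

/-- **positivity** -/
theorem posP : PosP := fun a b => ⟨TL8.beta_im a b, TL8.beta_pos a b⟩

theorem even_le {a b m : ℕ} (h : a + b = 2 * m) : blk a b ≤ rb a b ^ 2 ∧ rb a b ^ 2 ≤ (9 / 4) ^ m * blk a b :=
  TL8.rows_le h

theorem rhc_2l : TL8.rhc (π / 4) ^ 2 = 3 / 4 := by
  have hp := Real.pi_pos
  have h : |π / 4| < 3 * π / 8 := by rw [abs_of_pos (by positivity)]; linarith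
  have hs : Real.sin (π / 4) ≠ 0 := by
    rw [Real.sin_pi_div_four]
    positivity
  rw [TL8.rhc_eq h hs, show 2 * (π / 4) = π / 2 by ring, show 4 / 3 * (π / 4) = π / 3 by ring,
    Real.cos_pi_div_two, Real.sin_pi_div_four, Real.tan_pi_div_three, zero_add, mul_pow, div_pow,
    Real.sq_sqrt (by norm_num : (0 : ℝ) ≤ 3), mul_pow, div_pow]
  rw [Real.sq_sqrt (by norm_num : (0 : ℝ) ≤ 2)]
  norm_num

/-- the odd numbers of rows, by fusion -/
theorem odd_le {a b m : ℕ} (h : a + b = 2 * m) :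
    blk (a + 1) b ≤ rb (a + 1) b ^ 2 ∧ rb (a + 1) b ^ 2 ≤ (9 / 4) ^ (m + 1) * blk (a + 1) b := by
  have hp := Real.pi_pos
  set R : List ℝ := List.replicate a (0 : ℝ) ++ List.replicate b (π / 8) with hR
  have hl : (-(π / 8) :: π / 8 :: R).length = 2 * (m + 1) := by
    simp only [hR, List.length_cons, List.length_append, List.length_replicate]
    omega
  obtain ⟨x, hx⟩ : ∃ x : Fin (2 * (m + 1)) → ℝ, (-(π / 8) :: π / 8 :: R) = List.ofFn x := by
    have : ∀ (X : List ℝ) (n : ℕ), X.length = n → ∃ x : Fin n → ℝ, X = List.ofFn x := by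
      rintro X n rfl
      exact ⟨X.get, (List.ofFn_get X).symm⟩
    exact this _ _ hl
  have hmem : ∀ i, |x i| ≤ π / 8 := by
    intro i
    have h1 : x i ∈ (-(π / 8) :: π / 8 :: R) := by
      rw [hx]
      exact List.mem_ofFn.2 ⟨i, rfl⟩
    rcases List.mem_cons.1 h1 with h2 | h2
    · rw [h2, abs_neg, abs_of_pos (by positivity)]
    · rcases List.mem_cons.1 h2 with h3 | h3
      · rw [h3, abs_of_pos (by positivity)]
      · exact TL8.rows_abs a b _ h3
  have hd : ∀ i j, |x i - x j| < 3 * π / 8 := by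
    intro i j
    have h1 := hmem i
    have h2 := hmem j
    calc |x i - x j| ≤ |x i| + |x j| := abs_sub _ _
      _ < 3 * π / 8 := by linarith
  have h1 := TL8.all_le x hd
  -- the value
  have h2 : TL8.BF x = Complex.cos (2 * lam) * Complex.cos lam ^ b * beta (a + 1) b := by
    rw [TL8.BF_list, ← hx, List.map_cons, List.map_cons, Complex.ofReal_neg, TL8.lam_re, hR, TL8.rows_map, fuse0,
      cprod, beta_zero_cons]
  have h3 : (TL8.BF x).re ^ 2 = 1 / 2 * (3 / 4 * kap) ^ b * rb (a + 1) b ^ 2 := by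
    have hc : Complex.cos lam = ((Real.cos (π / 8) : ℝ) : ℂ) := by
      rw [Complex.ofReal_cos, TL8.lam_re]
    have e1 : TL8.BF x = ((√2 / 2 * Real.cos (π / 8) ^ b * rb (a + 1) b : ℝ) : ℂ) := by
      rw [h2, beta_re posP, cos2_val, hc]
      push_cast
      ring
    have e2 : Real.cos (π / 8) ^ 2 = 3 / 4 * kap := by
      have h4 := Real.cos_sq (π / 8)
      rw [show 2 * (π / 8) = π / 4 by ring, Real.cos_pi_div_four] at h4
      rw [h4]
      unfold kap
      ring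
    rw [e1, Complex.ofReal_re, mul_pow, mul_pow, div_pow, Real.sq_sqrt (by norm_num : (0 : ℝ) ≤ 2), ← pow_mul,
      mul_comm b 2, pow_mul, e2]
    norm_num
  have h4 : TL8.bulk x = 1 / 2 * (3 / 4 * kap) ^ b * blk (a + 1) b := by
    have e1 : TL8.bulk x = (2 / 3) ^ (2 * (m + 1)) * TL8.PL (fun x y => TL8.rhc (x - y) ^ 2) (-(π / 8) :: π / 8 :: R) := by
      rw [TL8.bulk, hx, TL8.PL_ofFn]
      congr 1
      rw [← Finset.prod_pow]
      exact Finset.prod_congr rfl fun i _ => (Finset.prod_pow _ _ _).symm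
    have f1 : TL8.rhc (-(π / 8) - π / 8) ^ 2 = 3 / 4 := by
      rw [show -(π / 8) - π / 8 = -(π / 4) by ring, TL8.rhc_even, rhc_2l]
    have f2 : TL8.rhc (-(π / 8) - 0) ^ 2 = kap := by
      rw [sub_zero, TL8.rhc_even, TL8.rhc_lam]
      rfl
    have f3 : TL8.rhc (π / 8 - 0) ^ 2 = kap := by
      rw [sub_zero, TL8.rhc_lam]
      rfl
    have f4 : TL8.rhc (π / 8 - π / 8) ^ 2 = kap ^ 2 := by
      rw [sub_self, TL8.rhc_zero]
      rfl
    rw [e1, TL8.PL, TL8.PL, List.map_cons, List.prod_cons, hR, TL8.PL_rows, List.map_append, List.prod_append,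
      List.map_replicate, List.map_replicate, List.prod_replicate, List.prod_replicate, List.map_append,
      List.prod_append, List.map_replicate, List.map_replicate, List.prod_replicate, List.prod_replicate, f1, f2, f3,
      f4]
    have f5 : ((2 + √2) / 3 : ℝ) = kap := rfl
    rw [f5]
    unfold blk
    rw [show 2 * (m + 1) = (a + 1 + b) + 1 by omega, pow_succ (2 / 3 : ℝ) (a + 1 + b), mul_pow (3 / 4 : ℝ) kap b,
      show (a + 1) * (a + 1 - 1) + b * (b - 1) + (a + 1) * b = a * (a - 1) + b * (b - 1) + a * b + 2 * a + b by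
        rcases a with _ | a
        · simp
        · simp only [Nat.add_sub_cancel]
          ring]
    ring
  have h5 : (0 : ℝ) < 1 / 2 * (3 / 4 * kap) ^ b := by
    have := kap_pos
    positivity
  rw [h3, h4] at h1
  constructor
  · exact le_of_mul_le_mul_left h1.1 h5
  · refine le_of_mul_le_mul_left (h1.2.trans (le_of_eq ?_)) h5
    ring

/-- from the squares to the logarithm -/
theorem Lt_of {a b n : ℕ} (h : blk a b ≤ rb a b ^ 2 ∧ rb a b ^ 2 ≤ (9 / 4) ^ n * blk a b) :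
    0 ≤ Lt a b ∧ 2 * Lt a b ≤ n * log (9 / 4) := by
  have h1 := (posP a b).2
  have h2 := blk_pos a b
  have e : log (blk a b) = 2 * lb a b := by rw [blk_eq, Real.log_exp]
  have e2 : log (rb a b ^ 2) = 2 * log (rb a b) := by
    rw [Real.log_pow]
    push_cast
    ring
  have h3 := Real.log_le_log h2 h.1
  have h4 := Real.log_le_log (by positivity) h.2
  rw [e, e2] at h3
  rw [Real.log_mul (by positivity) h2.ne', e, e2, Real.log_pow] at h4
  unfold Lt
  constructor <;> linarith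

theorem Lt_bd (a b : ℕ) : 0 ≤ Lt a b ∧ Lt a b ≤ log (9 / 4) * ((a : ℝ) + b) := by
  have hl : 0 ≤ log (9 / 4 : ℝ) := Real.log_nonneg (by norm_num)
  have key : ∀ a b m : ℕ, a + 1 + b = 2 * m + 1 → 0 ≤ Lt (a + 1) b ∧ Lt (a + 1) b ≤ log (9 / 4) * (((a + 1 : ℕ) : ℝ) + b) := by
    intro a b m h
    have h1 := Lt_of (odd_le (a := a) (b := b) (m := m) (by omega))
    refine ⟨h1.1, ?_⟩
    have h2 : ((m + 1 : ℕ) : ℝ) ≤ ((a + 1 : ℕ) : ℝ) + b := by
      have : m + 1 ≤ a + 1 + b := by omega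
      exact_mod_cast this
    have h3 := mul_le_mul_of_nonneg_right h2 hl
    have h4 : 0 ≤ (((a + 1 : ℕ) : ℝ) + b) * log (9 / 4) := by positivity
    nlinarith [h1.2]
  rcases Nat.even_or_odd' (a + b) with ⟨m, hm | hm⟩
  · have h1 := Lt_of (even_le hm)
    refine ⟨h1.1, ?_⟩
    have h2 : (m : ℝ) ≤ (a : ℝ) + b := by
      have : m ≤ a + b := by omega
      exact_mod_cast this
    have h3 := mul_le_mul_of_nonneg_right h2 hl
    have h4 : 0 ≤ ((a : ℝ) + b) * log (9 / 4) := by positivity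
    nlinarith [h1.2]
  · rcases a with _ | a
    · rcases b with _ | b
      · omega
      · rw [Lt_comm]
        have h1 := key b 0 m (by omega)
        refine ⟨h1.1, h1.2.trans (le_of_eq ?_)⟩
        push_cast
        ring
    · exact key a b m hm

/-- **the logarithm of the normaliser in all directions** -/
theorem Lt_main : ∃ C K : ℝ, 0 ≤ K ∧ ∀ a b : ℕ, (a, b) ≠ (0, 0) →
    |Lt a b - (5 / 96 * log ((a : ℝ) ^ 2 + a * b + b ^ 2) + C)| ≤
      K * ((a : ℝ) ^ 2 + a * b + b ^ 2) ^ (-(1 / 4) : ℝ) := by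
  obtain ⟨C, K1, hK1, h1⟩ := even_axis posP
  obtain ⟨K, hK, h2⟩ := T8L.pot (L := Lt) (be := 5 / 48) (C := C) (K := log (9 / 4)) (K1 := K1 * 2 ^ (1 / 2 : ℝ))
    (by norm_num) Lt_comm (Lt_E1 posP) (Lt_E2 posP) (fun a b => (Lt_bd a b).1) (fun a b => (Lt_bd a b).2)
    (fun m hm => by
      have hm0 : (0 : ℝ) < m := by exact_mod_cast hm
      refine (h1 m hm).trans (le_of_eq ?_)
      rw [Real.mul_rpow (by norm_num) hm0.le, mul_assoc, ← mul_assoc ((2 : ℝ) ^ (1 / 2 : ℝ)),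
        ← Real.rpow_add (by norm_num), add_neg_cancel, Real.rpow_zero, one_mul])
  refine ⟨C, K, hK, fun a b hab => ?_⟩
  have := h2 a b hab
  rwa [show (5 / 48 / 2 : ℝ) = 5 / 96 by norm_num] at this

theorem Q_pos {a b : ℕ} (h : (a, b) ≠ (0, 0)) : (1 : ℝ) ≤ (a : ℝ) ^ 2 + a * b + b ^ 2 := by
  have h1 : 1 ≤ a ^ 2 + a * b + b ^ 2 := by
    rcases Nat.eq_zero_or_pos a with rfl | ha
    · have hb : 0 < b := Nat.pos_of_ne_zero fun e => h (by rw [e])
      nlinarith
    · nlinarith [Nat.zero_le (a * b), Nat.zero_le (b ^ 2)]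
  exact_mod_cast h1

/-- **THE NORMALISER OF MIXED ROWS IN ALL DIRECTIONS** -/
theorem nrmm_main : ∃ A C : ℝ, 0 < A ∧ 0 ≤ C ∧ ∀ a b : ℕ, (a, b) ≠ (0, 0) →
    |nrmm a b / ((a : ℝ) ^ 2 + a * b + b ^ 2) ^ (5 / 48 : ℝ) - A| ≤
      C * ((a : ℝ) ^ 2 + a * b + b ^ 2) ^ (-(1 / 4) : ℝ) := by
  obtain ⟨C, K, hK, h1⟩ := Lt_main
  refine ⟨exp (2 * C), exp (2 * C) * exp (2 * K) * (2 * K), exp_pos _, by positivity, fun a b hab => ?_⟩
  have hQ1 := Q_pos hab
  have hQ : (0 : ℝ) < (a : ℝ) ^ 2 + a * b + b ^ 2 := by linarith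
  have h2 := h1 a b hab
  set p := ((a : ℝ) ^ 2 + a * b + b ^ 2) ^ (-(1 / 4) : ℝ) with hp
  have hp0 : 0 < p := by positivity
  have hp1 : p ≤ 1 := Real.rpow_le_one_of_one_le_of_nonpos hQ1 (by norm_num)
  have e : nrmm a b / ((a : ℝ) ^ 2 + a * b + b ^ 2) ^ (5 / 48 : ℝ) =
      exp (2 * Lt a b - 5 / 48 * log ((a : ℝ) ^ 2 + a * b + b ^ 2)) := by
    rw [nrmm_eq posP, Real.rpow_def_of_pos hQ, ← Real.exp_sub]
    congr 1
    ring
  have h4 : |(2 * Lt a b - 5 / 48 * log ((a : ℝ) ^ 2 + a * b + b ^ 2)) - 2 * C| ≤ 2 * K * p := by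
    rw [show (2 * Lt a b - 5 / 48 * log ((a : ℝ) ^ 2 + a * b + b ^ 2)) - 2 * C =
      2 * (Lt a b - (5 / 96 * log ((a : ℝ) ^ 2 + a * b + b ^ 2) + C)) by ring, abs_mul, abs_two]
    linarith
  have h5 : |(2 * Lt a b - 5 / 48 * log ((a : ℝ) ^ 2 + a * b + b ^ 2)) - 2 * C| ≤ 2 * K :=
    h4.trans (by nlinarith)
  rw [e]
  refine (SB.exp_sub_exp h5).trans ?_
  rw [mul_assoc (exp (2 * C) * exp (2 * K))]
  exact mul_le_mul_of_nonneg_left h4 (by positivity)

/-- **T8, for the scalars of the disc functional**: `a` rows at `c` and `b` rows at `c + l`, any order. -/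
theorem T8 : ∃ A C : ℝ, 0 < A ∧ 0 ≤ C ∧ ∀ {ι : Type} (z : ι → ℂ) (c : ℂ) (X S1 S2 : List ι),
    X.Perm (S1 ++ S2) → (∀ k ∈ S1, z k = c) → (∀ k ∈ S2, z k = c + lam) → X ≠ [] →
    |2 ^ (X.length * (X.length - 1)) * ‖BD z X‖ ^ 2 / bulkm S1.length S2.length /
      ((S1.length : ℝ) ^ 2 + S1.length * S2.length + (S2.length : ℝ) ^ 2) ^ (5 / 48 : ℝ) - A| ≤
      C * ((S1.length : ℝ) ^ 2 + S1.length * S2.length + (S2.length : ℝ) ^ 2) ^ (-(1 / 4) : ℝ) := by
  obtain ⟨A, C, hA, hC, h⟩ := nrmm_main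
  refine ⟨A, C, hA, hC, fun {ι} z c X S1 S2 hX h1 h2 hne => ?_⟩
  have hab : (S1.length, S2.length) ≠ (0, 0) := by
    intro e
    apply hne
    rw [Prod.mk.injEq, List.length_eq_zero_iff, List.length_eq_zero_iff] at e
    rw [e.1, e.2, List.append_nil] at hX
    exact hX.eq_nil
  have h3 := h _ _ hab
  rw [BD_rows' z c hX h1 h2, hX.length_eq, List.length_append]
  exact h3

end Pool.Agent.IT8
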