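import Pool.Agent.IT8.Three

/-!
# The lattice equation (helper71, ISO T8)

`beta a b`: the scalar of `a` rows at `0` and `b` rows at `l`.
-/

set_option autoImplicit false

namespace Pool.Agent.IT8

open Complex Finset
open Pool.Agent.NUF.Fr
open Pool.Agent.EXL.Fm (lam Dn)
open Pool.Agent.NUBD

/-- the scalar of `a` rows at `0` and `b` rows at `l` -/
noncomputable def beta (a b : ℕ) : ℂ := B (List.replicate a 0 ++ List.replicate b lam)

/-! ### Constants -/

theorem cos4 : cos (4 * lam) = 0 := by
  rw [show 4 * lam = (Real.pi : ℂ) / 2 by rw [← lam8]; ring, Complex.cos_pi_div_two]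

theorem sin4 : sin (4 * lam) = 1 := by
  rw [show 4 * lam = (Real.pi : ℂ) / 2 by rw [← lam8]; ring, Complex.sin_pi_div_two]

theorem sin_four_sub (w : ℂ) : sin (4 * lam - w) = cos w := by
  rw [Complex.sin_sub, sin4, cos4]
  ring

theorem sin_four_add (w : ℂ) : sin (4 * lam + w) = cos w := by
  rw [Complex.sin_add, sin4, cos4]
  ring

theorem sc2 : sin (2 * lam) = cos (2 * lam) := by
  have := sin_four_sub (2 * lam)
  rwa [show 4 * lam - 2 * lam = 2 * lam by ring] at this

theorem h3_l : h3 lam = sin (2 * lam) := by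
  unfold h3
  rw [show 3 * lam + lam = 4 * lam by ring, show 3 * lam - lam = 2 * lam by ring, sin4, one_mul]

theorem h3_2l : h3 (2 * lam) = cos lam * sin lam := by
  unfold h3
  rw [show 3 * lam + 2 * lam = 4 * lam + lam by ring, show 3 * lam - 2 * lam = lam by ring, sin_four_add]

/-- `cos 2 l = √2 / 2` -/
theorem cos2_val : cos (2 * lam) = ((Real.sqrt 2 / 2 : ℝ) : ℂ) := by
  rw [show 2 * lam = ((Real.pi / 4 : ℝ) : ℂ) by unfold lam; push_cast; ring, ← Complex.ofReal_cos,
    Real.cos_pi_div_four]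

/-- `4 cos² l = 2 + √2` -/
theorem cos_sq_val : 4 * cos lam ^ 2 = ((2 + Real.sqrt 2 : ℝ) : ℂ) := by
  have h := Complex.cos_two_mul lam
  rw [cos2_val] at h
  push_cast at h ⊢
  linear_combination -2 * h

theorem cosl_ne : cos lam ≠ 0 := by
  rw [show lam = ((Real.pi / 8 : ℝ) : ℂ) by unfold lam; push_cast; ring, ← Complex.ofReal_cos,
    Complex.ofReal_ne_zero]
  exact (Real.cos_pos_of_mem_Ioo ⟨by linarith [Real.pi_pos], by linarith [Real.pi_pos]⟩).ne'

theorem sinl_ne : sin lam ≠ 0 := by
  rw [show lam = ((Real.pi / 8 : ℝ) : ℂ) by unfold lam; push_cast; ring, ← Complex.ofReal_sin,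
    Complex.ofReal_ne_zero]
  exact (Real.sin_pos_of_pos_of_lt_pi (by linarith [Real.pi_pos]) (by linarith [Real.pi_pos])).ne'

theorem cos2_ne : cos (2 * lam) ≠ 0 := by
  rw [cos2_val, Complex.ofReal_ne_zero]
  positivity

/-! ### Fusion at `0` -/

theorem fuse0 (Y : List ℂ) : B (-lam :: lam :: Y) =
    cos (2 * lam) * (Y.map fun k => cos k).prod * B (0 :: Y) := by
  have h := B_fuse 0 Y
  rw [zero_sub, zero_add] at h
  rw [h]
  congr 3
  exact List.map_congr_left fun k _ => by rw [zero_sub, Complex.cos_neg]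

theorem cprod (a b : ℕ) : ((List.replicate a (0 : ℂ) ++ List.replicate b lam).map fun k => cos k).prod =
    cos lam ^ b := by
  rw [List.map_append, List.prod_append, List.map_replicate, List.map_replicate, List.prod_replicate,
    List.prod_replicate, Complex.cos_zero, one_pow, one_mul]

theorem beta_zero_cons (a b : ℕ) : B (0 :: (List.replicate a 0 ++ List.replicate b lam)) = beta (a + 1) b := by
  unfold beta
  rw [List.replicate_succ, List.cons_append]

theorem beta_lam_cons (a b : ℕ) : B (lam :: (List.replicate a 0 ++ List.replicate b lam)) = beta a (b + 1) := by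
  unfold beta
  rw [List.replicate_succ]
  exact B_perm List.perm_middle.symm

theorem beta_def (a b : ℕ) : B (List.replicate a 0 ++ List.replicate b lam) = beta a b := rfl

theorem lam_perm (a b : ℕ) : (List.replicate a (0 : ℂ) ++ List.replicate (b + 1) lam).Perm
    (lam :: (List.replicate a 0 ++ List.replicate b lam)) := by
  rw [List.replicate_succ]
  exact List.perm_middle

/-- reflection -/
theorem beta_comm (a b : ℕ) : beta a b = beta b a := by
  unfold beta
  rw [← B_neg, ← B_shift _ lam, List.map_map, List.map_append, List.map_replicate, List.map_replicate]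
  rw [show ((fun x => x + lam) ∘ fun x => -x) 0 = lam by simp,
    show ((fun x => x + lam) ∘ fun x => -x) lam = 0 by simp]
  exact B_perm List.perm_append_comm

theorem beta_neg (a : ℕ) : B (-lam :: List.replicate a 0) = beta a 1 := by
  unfold beta
  rw [← B_neg, List.map_cons, List.map_replicate, neg_neg, neg_zero]
  exact B_perm (by
    have := List.perm_append_comm (l₁ := [lam]) (l₂ := List.replicate a (0 : ℂ))
    simpa using this)

/-- **The lattice equation inside.** -/
theorem lat (a b : ℕ) : ((2 + Real.sqrt 2 : ℝ) : ℂ) * beta (a + 1) (b + 1) ^ 2 =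
    beta (a + 2) (b + 1) * beta a (b + 1) + beta (a + 1) (b + 2) * beta (a + 1) b +
      beta a (b + 2) * beta (a + 2) b := by
  set Z : List ℂ := List.replicate a 0 ++ List.replicate (b + 1) lam with hZ
  set Z' : List ℂ := List.replicate a 0 ++ List.replicate b lam with hZ'
  have hP : Z.Perm (lam :: Z') := lam_perm a b
  have h := three' lam (-lam) 0 Z
  have e1 : B (lam :: -lam :: Z) = cos (2 * lam) * cos lam ^ (b + 1) * beta (a + 1) (b + 1) := by
    rw [sw, fuse0, hZ, cprod, beta_zero_cons]
  have e2 : B (0 :: Z) = beta (a + 1) (b + 1) := beta_zero_cons _ _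
  have e3 : B (lam :: 0 :: Z) = beta (a + 1) (b + 2) := by
    have := beta_lam_cons (a + 1) (b + 1)
    rwa [List.replicate_succ, List.cons_append] at this
  have e4 : B (-lam :: Z) = cos (2 * lam) * cos lam ^ b * beta (a + 1) b := by
    rw [B_perm (hP.cons _), fuse0, hZ', cprod, beta_zero_cons]
  have e5 : B (lam :: Z) = beta a (b + 2) := beta_lam_cons _ _
  have e6 : B (-lam :: 0 :: Z) = cos (2 * lam) * cos lam ^ b * beta (a + 2) b := by
    rw [B_perm ((hP.cons 0).cons (-lam)), sw2, fuse0, List.map_cons, List.prod_cons, hZ', cprod, Complex.cos_zero,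
      one_mul]
    congr 1
  have e7 : B (lam :: -lam :: 0 :: Z) = cos (2 * lam) * cos lam ^ (b + 1) * beta (a + 2) (b + 1) := by
    rw [sw, fuse0, List.map_cons, List.prod_cons, hZ, cprod, Complex.cos_zero, one_mul]
    congr 1
  have e8 : B Z = beta a (b + 1) := rfl
  rw [e1, e2, e3, e4, e5, e6, e7, e8, show lam - -lam = 2 * lam by ring, sub_zero, sub_zero, h3_even, h3_l, h3_2l,
    Complex.sin_neg, sc2] at h
  have hs : sin (2 * lam) = 2 * sin lam * cos lam := Complex.sin_two_mul lam
  rw [sc2] at hs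
  rw [← cos_sq_val]
  have hc := cosl_ne
  have hl := sinl_ne
  have h2 := cos2_ne
  have hk : cos (2 * lam) ^ 4 * cos lam ^ (b + 1) * (4 * cos lam ^ 2 * beta (a + 1) (b + 1) ^ 2 -
      (beta (a + 2) (b + 1) * beta a (b + 1) + beta (a + 1) (b + 2) * beta (a + 1) b +
      beta a (b + 2) * beta (a + 2) b)) = 0 := by
    set D := cos (2 * lam)
    set c := cos lam
    set s := sin lam
    linear_combination (4 * c ^ 2) * h - (D ^ 2 * c ^ (b + 1) * (beta (a + 2) (b + 1) * beta a (b + 1) +
      beta (a + 1) (b + 2) * beta (a + 1) b + beta a (b + 2) * beta (a + 2) b) * (D + 2 * s * c)) * hs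
  have := (mul_eq_zero.1 hk).resolve_left (mul_ne_zero (pow_ne_zero _ h2) (pow_ne_zero _ hc))
  linear_combination this

/-- **The lattice equation on the axis.** -/
theorem lat0 (a : ℕ) : ((2 + Real.sqrt 2 : ℝ) : ℂ) * beta (a + 1) 0 ^ 2 =
    beta (a + 2) 0 * beta a 0 + (sin lam)⁻¹ * (beta (a + 1) 1 * beta a 1) := by
  set Z : List ℂ := List.replicate a 0 ++ List.replicate 0 lam with hZ
  have hZ1 : Z = List.replicate a 0 := by rw [hZ]; simp
  have h := three' lam (-lam) 0 Z
  have e1 : B (lam :: -lam :: Z) = cos (2 * lam) * beta (a + 1) 0 := by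
    rw [sw, fuse0, hZ, cprod, beta_zero_cons, pow_zero, mul_one]
  have e2 : B (0 :: Z) = beta (a + 1) 0 := beta_zero_cons _ _
  have e3 : B (lam :: 0 :: Z) = beta (a + 1) 1 := by
    have := beta_lam_cons (a + 1) 0
    rwa [List.replicate_succ, List.cons_append] at this
  have e4 : B (-lam :: Z) = beta a 1 := by rw [hZ1, beta_neg]
  have e5 : B (lam :: Z) = beta a 1 := beta_lam_cons _ _
  have e6 : B (-lam :: 0 :: Z) = beta (a + 1) 1 := by
    rw [hZ1, ← beta_neg, List.replicate_succ]
  have e7 : B (lam :: -lam :: 0 :: Z) = cos (2 * lam) * beta (a + 2) 0 := by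
    rw [sw, fuse0, List.map_cons, List.prod_cons, hZ, cprod, Complex.cos_zero, one_mul, pow_zero, mul_one]
    congr 1
  have e8 : B Z = beta a 0 := rfl
  rw [e1, e2, e3, e4, e5, e6, e7, e8, show lam - -lam = 2 * lam by ring, sub_zero, sub_zero, h3_even, h3_l, h3_2l,
    Complex.sin_neg, sc2] at h
  have hs : sin (2 * lam) = 2 * sin lam * cos lam := Complex.sin_two_mul lam
  rw [sc2] at hs
  rw [← cos_sq_val]
  have hl := sinl_ne
  have h2 := cos2_ne
  have hk : cos (2 * lam) ^ 4 * (4 * cos lam ^ 2 * beta (a + 1) 0 ^ 2 -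
      (beta (a + 2) 0 * beta a 0 + (sin lam)⁻¹ * (beta (a + 1) 1 * beta a 1))) = 0 := by
    have hi : sin lam * (sin lam)⁻¹ = 1 := mul_inv_cancel₀ hl
    generalize (sin lam)⁻¹ = y at *
    set D := cos (2 * lam)
    set c := cos lam
    set s := sin lam
    linear_combination (4 * c ^ 2) * h - (D ^ 2 * (beta (a + 2) 0 * beta a 0) * (D + 2 * s * c)) * hs -
      (beta (a + 1) 1 * beta a 1 * D * y * (D ^ 2 + 2 * s * c * D + 4 * s ^ 2 * c ^ 2)) * hs -
      (8 * D * c ^ 3 * s ^ 2 * (beta (a + 1) 1 * beta a 1)) * hi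
  have := (mul_eq_zero.1 hk).resolve_left (pow_ne_zero _ h2)
  linear_combination this

end Pool.Agent.IT8
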