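import Pool.Agent.IT8.Three
import Pool.Agent.NUBD.Sq
import Pool.Agent.NUQ2.DiscW

/-!
# The square of the scalar of real rows is a determinant (helper71, ISO T8)
-/

set_option autoImplicit false

namespace Pool.Agent.IT8

open Finset
open Pool.Agent.NUBD

/-- **the square of the scalar at an even number of generic real rows** -/
theorem link {n : ℕ} (hn : Even n) (θ : Fin n → ℝ)
    (hg : ∀ i j, i ≠ j → ∀ m : ℤ, θ i - θ j ≠ m * (Real.pi / 8))
    (hc : ∀ i j, Real.cos (2 * (θ i - θ j)) + √2 / 2 ≠ 0) :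
    2 ^ (n * (n - 1)) * ‖B (List.ofFn fun i => ((θ i : ℝ) : ℂ))‖ ^ 2 =
      (∏ i : Fin n, ∏ j ∈ Ioi i, NUQ2.Pf (θ i - θ j) ^ 2) *
        |(Matrix.of fun i j : Fin n => NUQ2.aK (θ i - θ j)).det| := by
  have h1 := BD_sq_Wd (fun x : ℂ => x) (List.ofFn fun i => -((θ i : ℝ) : ℂ)) []
  rw [List.append_nil] at h1
  have h2 : B (List.ofFn fun i => -((θ i : ℝ) : ℂ)) = B (List.ofFn fun i => ((θ i : ℝ) : ℂ)) := by
    rw [← B_neg (List.ofFn fun i => ((θ i : ℝ) : ℂ)), List.map_ofFn]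
    rfl
  have e1 : ((List.ofFn fun i => -((θ i : ℝ) : ℂ)).map fun k => Complex.exp (-(2 * Complex.I * k))) =
      List.ofFn fun i => Complex.exp (2 * θ i * Complex.I) := by
    rw [List.map_ofFn]
    congr 1
    funext i
    rw [Function.comp_apply]
    congr 1
    ring
  have hG : NUGas.Gen NUMv.eta ((List.ofFn fun i => Complex.exp (2 * θ i * Complex.I)) ++ []) := by
    rw [List.append_nil]
    refine ⟨?_, ?_⟩
    · intro x hx
      obtain ⟨i, rfl⟩ := (List.mem_ofFn' _ _).1 hx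
      exact Complex.exp_ne_zero _
    · rw [List.pairwise_ofFn]
      intro i j hij
      exact NUQ2.sep_circ (hg i j hij.ne)
  rw [e1, List.map_nil, Pool.Agent.NUF.Wd0_det hG, List.append_nil, List.length_ofFn,
    NUMv.dg] at h1
  have h3 := congrArg norm h1
  rw [norm_pow, norm_mul, norm_mul, NUQ2.DD_angle Pool.Agent.NUF.eta_rt hn θ hc, norm_pow] at h3
  have h4 : ‖((List.ofFn fun i => -((θ i : ℝ) : ℂ)).map fun k =>
      Complex.exp (2 * Complex.I * ((n : ℂ) - 1) * k)).prod‖ = 1 := by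
    rw [List.map_ofFn, List.prod_ofFn, norm_prod]
    refine Finset.prod_eq_one fun i _ => ?_
    rw [Function.comp_apply, show 2 * Complex.I * ((n : ℂ) - 1) * -((θ i : ℝ) : ℂ) =
      ((-(2 * ((n : ℝ) - 1) * θ i) : ℝ) : ℂ) * Complex.I by push_cast; ring]
    exact Complex.norm_exp_ofReal_mul_I _
  rw [h4, one_mul] at h3
  have h5 : BD (fun x : ℂ => x) (List.ofFn fun i => -((θ i : ℝ) : ℂ)) =
      B (List.ofFn fun i => -((θ i : ℝ) : ℂ)) := rfl
  rw [h5, h2] at h3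
  rw [h3, ← mul_assoc]
  have h6 : (2 : ℝ) ^ (n * (n - 1)) * ‖(1 / 2 : ℂ)‖ ^ (n * (n - 1)) = 1 := by
    rw [← mul_pow]
    norm_num
  rw [h6, one_mul]

end Pool.Agent.IT8
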