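import Pool.Agent.IT8.Tau

/-!
# Rows at `c` and `c + l` (helper71, ISO T8)
-/

set_option autoImplicit false

namespace Pool.Agent.IT8

open Finset Real
open Pool.Agent.NUBD
open Pool.Agent.EXL.Fm (lam)

/-- **the scalar of `a` rows at `c` and `b` rows at `c + l`** -/
theorem BD_rows {ι : Type*} (z : ι → ℂ) (c : ℂ) (S1 S2 : List ι) (h1 : ∀ k ∈ S1, z k = c)
    (h2 : ∀ k ∈ S2, z k = c + lam) : BD z (S1 ++ S2) = beta S1.length S2.length := by
  have e1 : S1.map z = List.replicate S1.length c := by
    rw [List.eq_replicate_iff]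
    refine ⟨List.length_map _, fun b hb => ?_⟩
    obtain ⟨k, hk, rfl⟩ := List.mem_map.1 hb
    exact h1 k hk
  have e2 : S2.map z = List.replicate S2.length (c + lam) := by
    rw [List.eq_replicate_iff]
    refine ⟨List.length_map _, fun b hb => ?_⟩
    obtain ⟨k, hk, rfl⟩ := List.mem_map.1 hb
    exact h2 k hk
  unfold beta
  rw [← B_map, List.map_append, e1, e2, ← B_shift (List.replicate S1.length 0 ++ List.replicate S2.length lam) c,
    List.map_append, List.map_replicate, List.map_replicate, zero_add, add_comm lam c]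

/-- the same in any order of the rows -/
theorem BD_rows' {ι : Type*} (z : ι → ℂ) (c : ℂ) {X S1 S2 : List ι} (hX : X.Perm (S1 ++ S2))
    (h1 : ∀ k ∈ S1, z k = c) (h2 : ∀ k ∈ S2, z k = c + lam) : BD z X = beta S1.length S2.length := by
  rw [BD_perm hX, BD_rows z c S1 S2 h1 h2]

/-- the bulk term with the powers of two of the disc function -/
noncomputable def bulkm (a b : ℕ) : ℝ := 2 ^ ((a + b) * (a + b - 1)) * blk a b

theorem bulkm_pos (a b : ℕ) : 0 < bulkm a b := by
  have := blk_pos a b
  unfold bulkm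
  positivity

/-- the normaliser -/
noncomputable def nrmm (a b : ℕ) : ℝ := 2 ^ ((a + b) * (a + b - 1)) * ‖beta a b‖ ^ 2 / bulkm a b

theorem nrmm_eq (hP : PosP) (a b : ℕ) : nrmm a b = exp (2 * Lt a b) := by
  have h1 := (hP a b).2
  have h3 : (2 : ℝ) ^ ((a + b) * (a + b - 1)) ≠ 0 := by positivity
  unfold nrmm bulkm
  rw [mul_div_mul_left _ _ h3, beta_re hP, Complex.norm_real, Real.norm_eq_abs, sq_abs, blk_eq]
  unfold Lt
  rw [show 2 * (log (rb a b) - lb a b) = (log (rb a b) + log (rb a b)) - 2 * lb a b by ring, Real.exp_sub,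
    Real.exp_add, Real.exp_log h1]
  ring

end Pool.Agent.IT8
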