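import Pool.Agent.IT8.Lattice
import Pool.Agent.T8.LatA
import Pool.Agent.PB.SBC
import Pool.Agent.PB.SB3

/-!
# The normalised scalars of mixed rows (helper71, ISO T8)

`Lt a b`: the logarithm of the scalar of `a` rows at `0` and `b` rows at `l` over the square root of the bulk
term; the equations `E1 = 3`, `E2 = 3` of `T8/LatA`; the even axis.
-/

set_option autoImplicit false

namespace Pool.Agent.IT8

open Finset Real

/-- `rh 0` -/
noncomputable def kap : ℝ := (2 + √2) / 3

theorem kap_pos : 0 < kap := by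
  unfold kap
  positivity

/-- the real scalar -/
noncomputable def rb (a b : ℕ) : ℝ := (beta a b).re

/-- half of the logarithm of the bulk term of `a` rows at `0` and `b` rows at `l` -/
noncomputable def lb (a b : ℕ) : ℝ :=
  (((a : ℝ) + b) * log (2 / 3) + ((a : ℝ) ^ 2 + a * b + b ^ 2 - a - b) * log kap) / 2

/-- the bulk term of `a` rows at `0` and `b` rows at `l` -/
noncomputable def blk (a b : ℕ) : ℝ := (2 / 3) ^ (a + b) * kap ^ (a * (a - 1) + b * (b - 1) + a * b)

theorem cast_pred (a : ℕ) : ((a * (a - 1) : ℕ) : ℝ) = (a : ℝ) ^ 2 - a := by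
  rcases a with _ | a
  · simp
  · rw [Nat.add_sub_cancel]
    push_cast
    ring

theorem blk_eq (a b : ℕ) : blk a b = exp (2 * lb a b) := by
  unfold blk lb
  rw [← Real.exp_log (show (0 : ℝ) < 2 / 3 by norm_num), ← Real.exp_nat_mul, Real.exp_log (by norm_num),
    ← Real.exp_log kap_pos, ← Real.exp_nat_mul, Real.exp_log kap_pos, ← Real.exp_add]
  congr 1
  have h1 := cast_pred a
  have h2 := cast_pred b
  rw [Nat.cast_add (a * (a - 1) + b * (b - 1)), Nat.cast_add (a * (a - 1)), h1, h2]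
  push_cast
  ring

theorem blk_pos (a b : ℕ) : 0 < blk a b := by
  rw [blk_eq]
  exact exp_pos _

/-- the logarithm of the normalised scalar -/
noncomputable def Lt (a b : ℕ) : ℝ := log (rb a b) - lb a b

/-- the positivity of the scalars of real rows -/
def PosP : Prop := ∀ a b : ℕ, (beta a b).im = 0 ∧ 0 < rb a b

theorem rb_comm (a b : ℕ) : rb a b = rb b a := by
  unfold rb
  rw [beta_comm]

theorem Lt_comm (a b : ℕ) : Lt a b = Lt b a := by
  unfold Lt lb
  rw [rb_comm]
  ring

section pos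

variable (hP : PosP)

include hP

theorem beta_re (a b : ℕ) : beta a b = ((rb a b : ℝ) : ℂ) := by
  apply Complex.ext
  · rfl
  · rw [(hP a b).1, Complex.ofReal_im]

theorem rlat (a b : ℕ) : (2 + √2) * rb (a + 1) (b + 1) ^ 2 =
    rb (a + 2) (b + 1) * rb a (b + 1) + rb (a + 1) (b + 2) * rb (a + 1) b +
      rb a (b + 2) * rb (a + 2) b := by
  have h := lat a b
  simp only [beta_re hP] at h
  exact_mod_cast h

theorem rlat0 (a : ℕ) : (2 + √2) * rb (a + 1) 0 ^ 2 =
    rb (a + 2) 0 * rb a 0 + (sin (π / 8))⁻¹ * (rb (a + 1) 1 * rb a 1) := by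
  have h := lat0 a
  rw [show Complex.sin Pool.Agent.EXL.Fm.lam = ((sin (π / 8) : ℝ) : ℂ) by
    rw [Complex.ofReal_sin]; unfold Pool.Agent.EXL.Fm.lam; push_cast; rfl] at h
  simp only [beta_re hP] at h
  exact_mod_cast h

theorem exp_L (a b c d e f : ℕ) : exp (Lt a b + Lt c d - 2 * Lt e f) =
    rb a b * rb c d / rb e f ^ 2 * exp (-(lb a b + lb c d - 2 * lb e f)) := by
  have h1 := (hP a b).2
  have h2 := (hP c d).2
  have h3 := (hP e f).2
  unfold Lt
  rw [show log (rb a b) - lb a b + (log (rb c d) - lb c d) - 2 * (log (rb e f) - lb e f) =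
    log (rb a b) + log (rb c d) - (log (rb e f) + log (rb e f)) + -(lb a b + lb c d - 2 * lb e f) by ring,
    Real.exp_add, Real.exp_sub, Real.exp_add, Real.exp_add, Real.exp_log h1, Real.exp_log h2, Real.exp_log h3]
  ring

theorem Lt_E1 (a b : ℕ) : T8L.E1 Lt a b = 3 := by
  unfold T8L.E1
  rw [exp_L hP, exp_L hP, exp_L hP,
    show lb (a + 2) (b + 1) + lb a (b + 1) - 2 * lb (a + 1) (b + 1) = log kap by
      unfold lb; push_cast; ring,
    show lb (a + 1) (b + 2) + lb (a + 1) b - 2 * lb (a + 1) (b + 1) = log kap by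
      unfold lb; push_cast; ring,
    show lb a (b + 2) + lb (a + 2) b - 2 * lb (a + 1) (b + 1) = log kap by
      unfold lb; push_cast; ring, Real.exp_neg, Real.exp_log kap_pos]
  have h := rlat hP a b
  have h1 := (hP (a + 1) (b + 1)).2
  have h2 := kap_pos
  have h3 : 3 * kap = 2 + √2 := by unfold kap; ring
  field_simp
  linear_combination -h - (rb (a + 1) (b + 1) ^ 2) * h3

omit hP in
theorem sin8_sq : 6 * kap * sin (π / 8) ^ 2 = 1 := by
  have h1 := Real.cos_two_mul (π / 8)
  have h2 := Real.sin_sq_add_cos_sq (π / 8)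
  rw [show 2 * (π / 8) = π / 4 by ring, Real.cos_pi_div_four] at h1
  have h3 : √2 ^ 2 = 2 := Real.sq_sqrt (by norm_num)
  unfold kap
  linear_combination (2 * (2 + √2)) * h2 + (2 + √2) * h1 - (1 / 2) * h3

theorem Lt_E2 (a : ℕ) : T8L.E2 Lt a = 3 := by
  unfold T8L.E2
  rw [exp_L hP, exp_L hP,
    show lb (a + 2) 0 + lb a 0 - 2 * lb (a + 1) 0 = log kap by
      unfold lb; push_cast; ring,
    show lb (a + 1) 1 + lb a 1 - 2 * lb (a + 1) 0 = log (2 * kap * sin (π / 8)) by
      have h1 := sin8_sq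
      have hs : 0 < sin (π / 8) := Real.sin_pos_of_pos_of_lt_pi (by positivity) (by linarith [Real.pi_pos])
      have h2 := kap_pos
      have h3 : log ((2 * kap * sin (π / 8)) ^ 2) = log (2 / 3 * kap) := by
        congr 1
        linear_combination (2 / 3 * kap) * h1
      rw [Real.log_pow, Real.log_mul (by norm_num) h2.ne'] at h3
      unfold lb
      push_cast at h3 ⊢
      linear_combination -(1 / 2) * h3, Real.exp_neg, Real.exp_neg, Real.exp_log kap_pos, Real.exp_log (by
        have hs : 0 < sin (π / 8) := Real.sin_pos_of_pos_of_lt_pi (by positivity) (by linarith [Real.pi_pos])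
        have h2 := kap_pos
        positivity)]
  have h := rlat0 hP a
  have h1 := (hP (a + 1) 0).2
  have h2 := kap_pos
  have h3 : 3 * kap = 2 + √2 := by unfold kap; ring
  have hs : 0 < sin (π / 8) := Real.sin_pos_of_pos_of_lt_pi (by positivity) (by linarith [Real.pi_pos])
  field_simp
  field_simp at h
  linear_combination -h - (rb (a + 1) 0 ^ 2 * sin (π / 8)) * h3

/-- the normaliser of rows `0` -/
theorem nrm_eq (m : ℕ) : PBM.nrm m = exp (2 * Lt (2 * m) 0) := by
  have h0 : PBM.B0 m = ((rb (2 * m) 0 : ℝ) : ℂ) := by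
    rw [← beta_re hP]
    unfold PBM.B0 beta
    rw [← B_map, List.map_replicate]
    simp
  have h1 := (hP (2 * m) 0).2
  have h2 : PBM.bulk0 m = 2 ^ (2 * m * (2 * m - 1)) * blk (2 * m) 0 := by
    unfold PBM.bulk0 blk kap
    rw [show (2 / 3 * (2 + √2) : ℝ) = 2 * ((2 + √2) / 3) by ring, mul_pow]
    simp only [add_zero, mul_zero, zero_mul]
    ring
  have h3 : (2 : ℝ) ^ (2 * m * (2 * m - 1)) ≠ 0 := by positivity
  unfold PBM.nrm
  rw [h0, Complex.norm_real, Real.norm_eq_abs, sq_abs, h2, mul_div_mul_left _ _ h3, blk_eq]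
  unfold Lt
  rw [show 2 * (log (rb (2 * m) 0) - lb (2 * m) 0) =
    (log (rb (2 * m) 0) + log (rb (2 * m) 0)) - 2 * lb (2 * m) 0 by ring, Real.exp_sub, Real.exp_add,
    Real.exp_log h1]
  ring

omit hP in
/-- the logarithm of a convergent sequence -/
theorem log_rate {x : ℕ → ℝ} {L C : ℝ} (hL : 0 < L)
    (h : ∀ k : ℕ, 1 ≤ k → |x k - L| ≤ C * (k : ℝ) ^ (-(1 / 2) : ℝ)) :
    ∃ K : ℝ, 0 ≤ K ∧ ∀ k : ℕ, 1 ≤ k → |log (x k) - log L| ≤ K * (k : ℝ) ^ (-(1 / 2) : ℝ) := by
  have hb : Filter.Tendsto (fun m : ℕ => C * (m : ℝ) ^ (-(1 / 2) : ℝ)) Filter.atTop (nhds 0) := by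
    have h3 := (tendsto_rpow_neg_atTop (show (0 : ℝ) < 1 / 2 by norm_num)).comp
      tendsto_natCast_atTop_atTop
    simpa using h3.const_mul C
  obtain ⟨N, hN⟩ := Filter.eventually_atTop.1 (hb.eventually (gt_mem_nhds (show (0 : ℝ) < L / 2 by positivity)))
  refine ⟨2 * |C| / L + (∑ k ∈ range (N + 1), |log (x k) - log L|) * √(N + 1), by positivity, fun k hk => ?_⟩
  have hk0 : (0 : ℝ) < k := by exact_mod_cast hk
  have hp : 0 < (k : ℝ) ^ (-(1 / 2) : ℝ) := by positivity
  rcases le_total N k with hNk | hNk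
  · have h1 := hN k hNk
    have h2 := h k hk
    have h3 : |x k - L| < L / 2 := lt_of_le_of_lt h2 h1
    have h4 : L / 2 < x k := by linarith [(abs_lt.1 h3).1]
    have hx0 : 0 < x k := by linarith
    have h5 : |log (x k) - log L| ≤ 2 * |x k - L| / L := by
      rw [abs_le]
      constructor
      · have := Real.one_sub_inv_le_log_of_pos (show 0 < x k / L by positivity)
        rw [Real.log_div hx0.ne' hL.ne', inv_div] at this
        have h6 : L / x k - 1 ≤ 2 * |x k - L| / L := by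
          rw [div_sub_one hx0.ne', div_le_div_iff₀ hx0 hL]
          have := neg_abs_le (x k - L)
          nlinarith [abs_nonneg (x k - L)]
        linarith
      · have := Real.log_le_sub_one_of_pos (show 0 < x k / L by positivity)
        rw [Real.log_div hx0.ne' hL.ne'] at this
        have h6 : x k / L - 1 ≤ 2 * |x k - L| / L := by
          rw [div_sub_one hL.ne', div_le_div_iff_of_pos_right hL]
          have := le_abs_self (x k - L)
          linarith [abs_nonneg (x k - L)]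
        linarith
    have h6 : |x k - L| ≤ |C| * (k : ℝ) ^ (-(1 / 2) : ℝ) :=
      h2.trans (mul_le_mul_of_nonneg_right (le_abs_self C) hp.le)
    have h7 : 2 * |x k - L| / L ≤ 2 * |C| / L * (k : ℝ) ^ (-(1 / 2) : ℝ) := by
      rw [div_mul_eq_mul_div, div_le_div_iff_of_pos_right hL]
      linarith
    have h8 : 0 ≤ (∑ k ∈ range (N + 1), |log (x k) - log L|) * √(N + 1) := by positivity
    have h9 := mul_nonneg h8 hp.le
    rw [add_mul]
    linarith
  · have h1 : |log (x k) - log L| ≤ ∑ k ∈ range (N + 1), |log (x k) - log L| :=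
      Finset.single_le_sum (f := fun k => |log (x k) - log L|) (fun _ _ => abs_nonneg _)
        (Finset.mem_range.2 (by omega))
    have h2 : 1 ≤ √(N + 1) * (k : ℝ) ^ (-(1 / 2) : ℝ) := by
      rw [Real.rpow_neg hk0.le, ← Real.sqrt_eq_rpow, ← div_eq_mul_inv, le_div_iff₀ (Real.sqrt_pos.2 hk0), one_mul]
      refine Real.sqrt_le_sqrt ?_
      have : (k : ℝ) ≤ N := by exact_mod_cast hNk
      linarith
    have h3 : 0 ≤ ∑ k ∈ range (N + 1), |log (x k) - log L| := by positivity
    have h4 : 0 ≤ 2 * |C| / L * (k : ℝ) ^ (-(1 / 2) : ℝ) := by positivity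
    have h5 : (∑ k ∈ range (N + 1), |log (x k) - log L|) * 1 ≤
      (∑ k ∈ range (N + 1), |log (x k) - log L|) * (√(N + 1) * (k : ℝ) ^ (-(1 / 2) : ℝ)) :=
      mul_le_mul_of_nonneg_left h2 h3
    rw [add_mul]
    rw [mul_one] at h5
    linarith

/-- **the even axis** -/
theorem even_axis : ∃ C K : ℝ, 0 ≤ K ∧ ∀ m : ℕ, 1 ≤ m →
    |Lt (2 * m) 0 - (5 / 48 * log (2 * m) + C)| ≤ K * (m : ℝ) ^ (-(1 / 2) : ℝ) := by
  obtain ⟨L, C, hL, -, h⟩ := SB.nrm_sharp SB.quot_main
  obtain ⟨K, hK, hk⟩ := log_rate (x := fun k : ℕ => PBM.nrm k / (k : ℝ) ^ (5 / 24 : ℝ)) hL h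
  refine ⟨log L / 2 - 5 / 48 * log 2, K / 2, by positivity, fun m hm => ?_⟩
  have hm0 : (0 : ℝ) < m := by exact_mod_cast hm
  have h1 := hk m hm
  beta_reduce at h1
  rw [nrm_eq hP, Real.log_div (exp_pos _).ne' (by positivity), Real.log_exp, Real.log_rpow hm0] at h1
  rw [Real.log_mul (by norm_num) hm0.ne',
    show Lt (2 * m) 0 - (5 / 48 * (log 2 + log (m : ℝ)) + (log L / 2 - 5 / 48 * log 2)) =
      (2 * Lt (2 * m) 0 - 5 / 24 * log (m : ℝ) - log L) / 2 by ring, abs_div, abs_two]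
  linarith

end pos

end Pool.Agent.IT8
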