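import Pool.Agent.NUBD.BD2

/-!
# The three term identity for the scalars of the disc functional (helper71, ISO T8)

`B X` for a list `X` of rapidities.  `three`: the quadratic identity of three rapidities `p q r` over a
common list `Z`.
-/

set_option autoImplicit false

namespace Pool.Agent.IT8

open Complex Finset Polynomial
open Pool.Agent.NUF.Fr
open Pool.Agent.EXL.Fm (lam Dn)
open Pool.Agent.NUBD

/-- the scalars of the disc functional, of a list of rapidities -/
noncomputable def B (X : List ℂ) : ℂ := BD (fun x : ℂ => x) X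

/-- `sin (3 l + w) sin (3 l - w)` -/
noncomputable def h3 (w : ℂ) : ℂ := sin (3 * lam + w) * sin (3 * lam - w)

theorem B_nil : B [] = 1 := BD_nil

theorem B_perm {X Y : List ℂ} (h : X.Perm Y) : B X = B Y := BD_perm h

theorem B_map {ι : Type*} (z : ι → ℂ) (X : List ι) : B (X.map z) = BD z X := BD_map _ _

theorem B_hi (q : ℂ) (Y : List ℂ) :
    B ((q + 3 * lam) :: q :: Y) = c3 * (Y.map fun k => Dn (k - q)).prod * B Y := BD_hi rfl

theorem B_lo (q : ℂ) (Y : List ℂ) :
    B ((q - 3 * lam) :: q :: Y) = c3 * (Y.map fun k => Dn (q - k)).prod * B Y := BD_lo rfl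

theorem B_neg (X : List ℂ) : B (X.map fun x => -x) = B X := by
  rw [B_map, BD_neg (fun x : ℂ => x)]
  rfl

theorem B_shift (X : List ℂ) (c : ℂ) : B (X.map fun x => x + c) = B X := by
  rw [B_map, BD_shift (z := fun x : ℂ => x)]
  rfl

/-- **Fusion.** -/
theorem B_fuse (q : ℂ) (Y : List ℂ) : B ((q - lam) :: (q + lam) :: Y) =
    cos (2 * lam) * (Y.map fun k => cos (q - k)).prod * B (q :: Y) := by
  set z : Option (Option ℂ) → ℂ := fun o => match o with
    | none => q - lam
    | some none => q + lam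
    | some (some k) => k with hz
  set z' : Option (Option ℂ) → ℂ := fun o => match o with
    | none => q - lam
    | some none => q
    | some (some k) => k with hz'
  have h := BD_fuse (z := z) (z' := z') (p := none) (q := some none)
    (Y := Y.map fun k => some (some k)) (by rw [hz]; ring) (by rw [hz, hz']; ring) (by
      intro k hk
      obtain ⟨y, _, rfl⟩ := List.mem_map.1 hk
      rfl)
  rw [← B_map, ← B_map] at h
  simp only [List.map_cons, List.map_map] at h
  have e1 : List.map (z ∘ fun k => some (some k)) Y = Y := by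
    rw [show (z ∘ fun k => some (some k)) = id from rfl, List.map_id]
  have e2 : List.map (z' ∘ fun k => some (some k)) Y = Y := by
    rw [show (z' ∘ fun k => some (some k)) = id from rfl, List.map_id]
  rw [e1, e2] at h
  exact h

/-! ### The nodes -/

theorem h3_even (w : ℂ) : h3 (-w) = h3 w := by
  unfold h3
  rw [sub_neg_eq_add, ← sub_eq_add_neg]
  ring

theorem lam8 : 8 * lam = (Real.pi : ℂ) := by
  unfold lam
  ring

theorem sin_6 (w : ℂ) : sin (6 * lam + w) = sin (2 * lam - w) := by
  rw [show 6 * lam + w = (Real.pi : ℂ) - (2 * lam - w) by rw [← lam8]; ring, Complex.sin_pi_sub]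

theorem h3_up (w : ℂ) : h3 (w + 3 * lam) = - (sin w * sin (2 * lam - w)) := by
  unfold h3
  rw [show 3 * lam + (w + 3 * lam) = 6 * lam + w by ring, sin_6,
    show 3 * lam - (w + 3 * lam) = -w by ring, Complex.sin_neg]
  ring

theorem Dn_neg' (w : ℂ) : Dn (-w) = sin (2 * lam - w) * sin (3 * lam - w) := by
  unfold Dn
  rw [← sub_eq_add_neg, ← sub_eq_add_neg]

theorem up1 (w : ℂ) : h3 (w + 3 * lam) * sin (3 * lam - w) = - (sin w * Dn (-w)) := by
  rw [h3_up, Dn_neg']
  ring

theorem sin_up (w : ℂ) : sin (w + 3 * lam) * sin (3 * lam - w) = h3 w := by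
  unfold h3
  rw [add_comm w]

/-- if `sin (8 w) ≠ 0`, no shift of `w` by a multiple of `3 l` is a zero of the sine -/
theorem gen_ne {w : ℂ} (h : sin (8 * w) ≠ 0) (m : ℤ) : sin (w + 3 * m * lam) ≠ 0 := by
  intro h0
  apply h
  obtain ⟨k, hk⟩ := Complex.sin_eq_zero_iff.1 h0
  rw [Complex.sin_eq_zero_iff]
  refine ⟨8 * k - 3 * m, ?_⟩
  push_cast
  rw [← lam8] at hk ⊢
  linear_combination 8 * hk

/-! ### The quadratic expression -/

/-- the expression that vanishes -/
noncomputable def TT (p q r : ℂ) (Z : List ℂ) : ℂ :=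
  sin (p - q) * h3 (p - r) * h3 (q - r) * (B (p :: q :: Z) * B (r :: Z)) -
    sin (p - r) * h3 (p - q) * h3 (q - r) * (B (p :: r :: Z) * B (q :: Z)) +
    sin (q - r) * h3 (p - q) * h3 (p - r) * (B (p :: Z) * B (q :: r :: Z)) +
    sin (p - q) * sin (p - r) * sin (q - r) * (B (p :: q :: r :: Z) * B Z)

theorem sw (a b : ℂ) (Y : List ℂ) : B (a :: b :: Y) = B (b :: a :: Y) := B_perm (List.Perm.swap _ _ _)

theorem sw2 (a b c : ℂ) (Y : List ℂ) : B (a :: b :: c :: Y) = B (a :: c :: b :: Y) :=
  B_perm ((List.Perm.swap _ _ _).cons _)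

theorem TT_1 (q r : ℂ) (Z : List ℂ) : TT q q r Z = 0 := by
  unfold TT
  rw [sub_self, Complex.sin_zero]
  ring

theorem TT_2 (q r : ℂ) (Z : List ℂ) : TT r q r Z = 0 := by
  unfold TT
  rw [sub_self, Complex.sin_zero, sw r q, show r - q = -(q - r) by ring, h3_even, Complex.sin_neg]
  ring

theorem h3_3 : h3 (3 * lam) = 0 := by
  unfold h3
  rw [sub_self, Complex.sin_zero, mul_zero]

theorem h3_3' : h3 (-(3 * lam)) = 0 := by rw [h3_even, h3_3]

theorem TT_3 (q r : ℂ) (Z : List ℂ) : TT (q + 3 * lam) q r Z = 0 := by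
  unfold TT
  rw [show q + 3 * lam - q = 3 * lam by ring, h3_3, B_hi, B_hi, List.map_cons, List.prod_cons,
    show q + 3 * lam - r = (q - r) + 3 * lam by ring, show r - q = -(q - r) by ring]
  set w := q - r
  rw [h3_up, Dn_neg']
  unfold h3
  rw [add_comm w (3 * lam)]
  ring

theorem TT_4 (q r : ℂ) (Z : List ℂ) : TT (q - 3 * lam) q r Z = 0 := by
  unfold TT
  rw [show q - 3 * lam - q = -(3 * lam) by ring, h3_3', B_lo, B_lo, List.map_cons, List.prod_cons,
    show q - 3 * lam - r = -(-(q - r) + 3 * lam) by ring, h3_even, Complex.sin_neg (-(q - r) + 3 * lam)]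
  set w := q - r
  rw [h3_up, Complex.sin_neg w]
  unfold h3 Dn
  rw [show -w + 3 * lam = 3 * lam - w by ring, show 2 * lam - -w = 2 * lam + w by ring]
  ring

theorem TT_5 (q r : ℂ) (Z : List ℂ) : TT (r + 3 * lam) q r Z = 0 := by
  unfold TT
  rw [show r + 3 * lam - r = 3 * lam by ring, h3_3, sw2, B_hi, B_hi, List.map_cons, List.prod_cons,
    show r + 3 * lam - q = -(q - r) + 3 * lam by ring]
  set w := q - r
  rw [h3_up, Complex.sin_neg]
  unfold h3 Dn
  rw [show -w + 3 * lam = 3 * lam - w by ring, show 2 * lam - -w = 2 * lam + w by ring]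
  ring

theorem TT_6 (i q r : ℂ) (Z : List ℂ) :
    TT (i + 3 * lam) q r (i :: Z) * (sin (3 * lam - (i - q)) * sin (3 * lam - (i - r))) =
      c3 * (Z.map fun k => Dn (k - i)).prod * (Dn (-(i - q)) * Dn (-(i - r))) * TT i q r Z := by
  unfold TT
  rw [sw2 _ q i, sw2 _ r i, show B ((i + 3 * lam) :: q :: r :: i :: Z) = B ((i + 3 * lam) :: i :: q :: r :: Z) from
    B_perm (List.Perm.cons _ (List.perm_middle (l₁ := [q, r]))), B_hi, B_hi, B_hi, B_hi]
  simp only [List.map_cons, List.prod_cons]
  rw [sw r i, sw q i, show B (q :: r :: i :: Z) = B (i :: q :: r :: Z) from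
    B_perm (List.perm_middle (l₁ := [q, r])), show i + 3 * lam - q = (i - q) + 3 * lam by ring,
    show i + 3 * lam - r = (i - r) + 3 * lam by ring, show q - i = -(i - q) by ring,
    show r - i = -(i - r) by ring]
  have h1 := up1 (i - q)
  have h2 := up1 (i - r)
  have h3' := sin_up (i - q)
  have h4 := sin_up (i - r)
  set a := i - q
  set b := i - r
  set P := (Z.map fun k => Dn (k - i)).prod
  rw [← h3', ← h4]
  generalize h3 (a + 3 * lam) = u at *
  generalize h3 (b + 3 * lam) = v at *
  generalize Dn (-a) = da at *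
  generalize Dn (-b) = db at *
  generalize sin (3 * lam - a) = xa at *
  generalize sin (3 * lam - b) = xb at *
  generalize sin (a + 3 * lam) = ya at *
  generalize sin (b + 3 * lam) = yb at *
  linear_combination (c3 * P * (- yb * xb * h3 (q - r) * db * B (r :: Z) * B (i :: q :: Z) +
      sin (q - r) * v * xb * B Z * B (i :: q :: r :: Z))) * h1 +
    (c3 * P * (ya * xa * h3 (q - r) * da * B (q :: Z) * B (i :: r :: Z) -
      sin (q - r) * sin a * da * B Z * B (i :: q :: r :: Z))) * h2

/-! ### The polynomial -/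

/-- `sin (p - c)` as a polynomial in `e2 p` -/
noncomputable def S1 (c : ℂ) : ℂ[X] := C (exp (-(I * c)) / (2 * I)) - C (exp (I * c) / I) * X

theorem S1_eval (p c : ℂ) : sin (p - c) = exp (I * p) * (S1 c).eval (e2 p) := by
  unfold S1 e2
  rw [eval_sub, eval_mul, eval_C, eval_C, eval_X, Complex.sin]
  have e1 : exp ((p - c) * I) = exp (I * p) * exp (-(I * c)) := by
    rw [← Complex.exp_add]
    congr 1
    ring
  have e3 : exp (-(p - c) * I) = exp (I * p) * (exp (I * c) * exp (-(2 * I * p))) := by
    rw [← Complex.exp_add, ← Complex.exp_add]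
    congr 1
    ring
  rw [e1, e3]
  have hI : (I : ℂ)⁻¹ = -I := Complex.inv_I
  simp only [div_eq_mul_inv, mul_inv, hI]
  ring

theorem S1_deg (c : ℂ) : (S1 c).natDegree ≤ 1 := by
  unfold S1
  refine (natDegree_sub_le _ _).trans (max_le (by rw [natDegree_C]; omega) ?_)
  exact (natDegree_C_mul_le _ _).trans natDegree_X_le

/-- `h3 (p - c)` -/
noncomputable def H1 (c : ℂ) : ℂ[X] := -(S1 (c - 3 * lam) * S1 (c + 3 * lam))

theorem H1_eval (p c : ℂ) : h3 (p - c) = exp (I * p) * exp (I * p) * (H1 c).eval (e2 p) := by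
  unfold h3 H1
  rw [eval_neg, eval_mul, show 3 * lam + (p - c) = p - (c - 3 * lam) by ring,
    show 3 * lam - (p - c) = -(p - (c + 3 * lam)) by ring, Complex.sin_neg, S1_eval, S1_eval]
  ring

theorem dm {P Q : ℂ[X]} {a b n : ℕ} (hP : P.natDegree ≤ a) (hQ : Q.natDegree ≤ b) (h : a + b ≤ n) :
    (P * Q).natDegree ≤ n := (natDegree_mul_le_of_le hP hQ).trans h

theorem H1_deg (c : ℂ) : (H1 c).natDegree ≤ 2 := by
  unfold H1
  rw [natDegree_neg]
  exact dm (S1_deg _) (S1_deg _) le_rfl

/-- the polynomial of a list -/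
noncomputable def BQ (X : List ℂ) : ℂ[X] := BP (fun x : ℂ => x) X

theorem BQ_eval (p : ℂ) (X : List ℂ) : B (p :: X) = exp (I * p) ^ X.length * (BQ X).eval (e2 p) := by
  unfold B BQ
  rw [BD_cons_pol, ← Complex.exp_nat_mul]
  congr 2
  ring

theorem BQ_deg (X : List ℂ) {n : ℕ} (h : X.length ≤ n) : (BQ X).natDegree ≤ n := BP_deg.trans h

/-- the polynomial of `TT` -/
noncomputable def TQ (q r : ℂ) (Z : List ℂ) : ℂ[X] :=
  C (h3 (q - r) * B (r :: Z)) * (S1 q * (H1 r * BQ (q :: Z))) -
    C (h3 (q - r) * B (q :: Z)) * (S1 r * (H1 q * BQ (r :: Z))) +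
    C (sin (q - r) * B (q :: r :: Z)) * (H1 q * (H1 r * BQ Z)) +
    C (sin (q - r) * B Z) * (S1 q * (S1 r * BQ (q :: r :: Z)))

theorem TQ_eval (p q r : ℂ) (Z : List ℂ) :
    TT p q r Z = exp (I * p) ^ (Z.length + 4) * (TQ q r Z).eval (e2 p) := by
  unfold TT TQ
  simp only [eval_add, eval_sub, eval_mul, eval_C]
  rw [BQ_eval p (q :: Z), BQ_eval p (r :: Z), BQ_eval p Z, BQ_eval p (q :: r :: Z), S1_eval p q, S1_eval p r,
    H1_eval p q, H1_eval p r, List.length_cons, List.length_cons, List.length_cons, List.length_cons]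
  ring

theorem TQ_deg (q r : ℂ) (Z : List ℂ) : (TQ q r Z).natDegree ≤ Z.length + 4 := by
  unfold TQ
  have h1 : (BQ (q :: Z)).natDegree ≤ Z.length + 1 := BQ_deg _ (by simp)
  have h2 : (BQ (r :: Z)).natDegree ≤ Z.length + 1 := BQ_deg _ (by simp)
  have h3' : (BQ Z).natDegree ≤ Z.length := BQ_deg _ le_rfl
  have h4 : (BQ (q :: r :: Z)).natDegree ≤ Z.length + 2 := BQ_deg _ (by simp)
  refine natDegree_add_le_of_degree_le (natDegree_add_le_of_degree_le ((natDegree_sub_le _ _).trans
    (max_le ?_ ?_)) ?_) ?_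
  · exact (natDegree_C_mul_le _ _).trans (dm (S1_deg _) (dm (H1_deg _) h1 le_rfl) (by omega))
  · exact (natDegree_C_mul_le _ _).trans (dm (S1_deg _) (dm (H1_deg _) h2 le_rfl) (by omega))
  · exact (natDegree_C_mul_le _ _).trans (dm (H1_deg _) (dm (H1_deg _) h3' le_rfl) (by omega))
  · exact (natDegree_C_mul_le _ _).trans (dm (S1_deg _) (dm (S1_deg _) h4 le_rfl) (by omega))

/-- the nodes -/
noncomputable def nd (q r : ℂ) (Z : List ℂ) : List ℂ :=
  [q, r, q + 3 * lam, q - 3 * lam, r + 3 * lam] ++ Z.map fun k => k + 3 * lam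

theorem sin3_ne : sin (3 * lam) ≠ 0 := by
  intro h
  obtain ⟨k, hk⟩ := Complex.sin_eq_zero_iff.1 h
  have h1 : (3 : ℂ) * Real.pi = (8 * k : ℂ) * Real.pi := by
    rw [← lam8] at hk ⊢
    linear_combination 8 * hk
  have h2 := mul_right_cancel₀ (Complex.ofReal_ne_zero.2 Real.pi_ne_zero) h1
  have h3 : (3 : ℤ) = 8 * k := by exact_mod_cast h2
  omega

theorem sin6_ne : sin (6 * lam) ≠ 0 := by
  intro h
  obtain ⟨k, hk⟩ := Complex.sin_eq_zero_iff.1 h
  have h1 : (6 : ℂ) * Real.pi = (8 * k : ℂ) * Real.pi := by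
    rw [← lam8] at hk ⊢
    linear_combination 8 * hk
  have h2 := mul_right_cancel₀ (Complex.ofReal_ne_zero.2 Real.pi_ne_zero) h1
  have h3 : (6 : ℤ) = 8 * k := by exact_mod_cast h2
  omega

theorem ne_node {a b : ℂ} (h : sin (8 * (a - b)) ≠ 0) {x y : ℂ} (m n : ℤ) (hx : x = a + 3 * m * lam)
    (hy : y = b + 3 * n * lam) : e2 x ≠ e2 y := by
  intro he
  have h1 := e2_inj he
  refine gen_ne h (m - n) ?_
  rw [← h1, hx, hy]
  congr 1
  push_cast
  ring

/-- the nodes have different images -/
theorem nd_pw {q r : ℂ} {Z : List ℂ} (hg : (q :: r :: Z).Pairwise fun a b => sin (8 * (a - b)) ≠ 0) :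
    (nd q r Z).Pairwise fun a b => e2 a ≠ e2 b := by
  rw [List.pairwise_cons, List.pairwise_cons] at hg
  obtain ⟨hq, hr, hZ⟩ := hg
  have hqr := hq r (by simp)
  have hqZ : ∀ k ∈ Z, sin (8 * (q - k)) ≠ 0 := fun k hk => hq k (by simp [hk])
  unfold nd
  rw [List.pairwise_append]
  refine ⟨?_, ?_, ?_⟩
  · simp only [List.pairwise_cons, List.mem_cons, List.not_mem_nil, or_false, forall_eq_or_imp, forall_eq,
      List.Pairwise.nil, and_true, IsEmpty.forall_iff, implies_true]
    refine ⟨⟨?_, ?_, ?_, ?_⟩, ⟨?_, ?_, ?_⟩, ⟨?_, ?_⟩, ?_⟩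
    · exact ne_node hqr 0 0 (by push_cast; ring) (by push_cast; ring)
    · intro h
      have := e2_inj h
      rw [show q - (q + 3 * lam) = -(3 * lam) by ring, Complex.sin_neg, neg_eq_zero] at this
      exact sin3_ne this
    · intro h
      have := e2_inj h
      rw [show q - (q - 3 * lam) = 3 * lam by ring] at this
      exact sin3_ne this
    · exact ne_node hqr 0 1 (by push_cast; ring) (by push_cast; ring)
    · exact (ne_node hqr 1 0 (by push_cast; ring) (by push_cast; ring)).symm
    · exact (ne_node hqr (-1) 0 (by push_cast; ring) (by push_cast; ring)).symm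
    · intro h
      have := e2_inj h
      rw [show r - (r + 3 * lam) = -(3 * lam) by ring, Complex.sin_neg, neg_eq_zero] at this
      exact sin3_ne this
    · intro h
      have := e2_inj h
      rw [show q + 3 * lam - (q - 3 * lam) = 6 * lam by ring] at this
      exact sin6_ne this
    · exact ne_node hqr 1 1 (by push_cast; ring) (by push_cast; ring)
    · exact ne_node hqr (-1) 1 (by push_cast; ring) (by push_cast; ring)
  · rw [List.pairwise_map]
    exact hZ.imp fun h => ne_node h 1 1 (by push_cast; ring) (by push_cast; ring)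
  · intro a ha b hb
    obtain ⟨k, hk, rfl⟩ := List.mem_map.1 hb
    simp only [List.mem_cons, List.not_mem_nil, or_false] at ha
    rcases ha with rfl | rfl | rfl | rfl | rfl
    · exact ne_node (hqZ k hk) 0 1 (by push_cast; ring) (by push_cast; ring)
    · exact ne_node (hr k hk) 0 1 (by push_cast; ring) (by push_cast; ring)
    · exact ne_node (hqZ k hk) 1 1 (by push_cast; ring) (by push_cast; ring)
    · exact ne_node (hqZ k hk) (-1) 1 (by push_cast; ring) (by push_cast; ring)
    · exact ne_node (hr k hk) 1 1 (by push_cast; ring) (by push_cast; ring)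

/-- generic case -/
theorem TT_gen {q r : ℂ} {Z : List ℂ} (hg : (q :: r :: Z).Pairwise fun a b => sin (8 * (a - b)) ≠ 0)
    (ih : ∀ i ∈ Z, TT i q r (Z.erase i) = 0) (p : ℂ) : TT p q r Z = 0 := by
  have key : TQ q r Z = 0 := by
    have hpw := nd_pw hg
    have hnd : ((nd q r Z).map e2).Nodup := by
      unfold List.Nodup
      rw [List.pairwise_map]
      exact hpw
    have hcard : ((nd q r Z).map e2).toFinset.card = Z.length + 5 := by
      rw [List.toFinset_card_of_nodup hnd]
      simp [nd]
    refine eq_zero_of_natDegree_lt_card_of_eval_eq_zero' _ ((nd q r Z).map e2).toFinset ?_ ?_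
    · intro t ht
      obtain ⟨x, hx, rfl⟩ := List.mem_map.1 (List.mem_toFinset.1 ht)
      have h0 : TT x q r Z = 0 := by
        unfold nd at hx
        rw [List.mem_append] at hx
        rcases hx with hx | hx
        · simp only [List.mem_cons, List.not_mem_nil, or_false] at hx
          rcases hx with rfl | rfl | rfl | rfl | rfl
          · exact TT_1 _ _ _
          · exact TT_2 _ _ _
          · exact TT_3 _ _ _
          · exact TT_4 _ _ _
          · exact TT_5 _ _ _
        · obtain ⟨i, hi, rfl⟩ := List.mem_map.1 hx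
          have hp := List.perm_cons_erase hi
          have h1 := TT_6 i q r (Z.erase i)
          rw [ih i hi, mul_zero] at h1
          rw [List.pairwise_cons, List.pairwise_cons] at hg
          obtain ⟨hq, hr, _⟩ := hg
          have h2 : sin (3 * lam - (i - q)) ≠ 0 := by
            have := gen_ne (hq i (by simp [hi])) 1
            rw [show 3 * lam - (i - q) = q - i + 3 * (1 : ℤ) * lam by push_cast; ring]
            exact this
          have h3' : sin (3 * lam - (i - r)) ≠ 0 := by
            have := gen_ne (hr i hi) 1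
            rw [show 3 * lam - (i - r) = r - i + 3 * (1 : ℤ) * lam by push_cast; ring]
            exact this
          have h4 := (mul_eq_zero.1 h1).resolve_right (mul_ne_zero h2 h3')
          rw [← h4]
          unfold TT
          rw [B_perm (hp.cons r), B_perm (hp.cons q), B_perm ((hp.cons q).cons (i + 3 * lam)),
            B_perm ((hp.cons r).cons (i + 3 * lam)), B_perm (hp.cons (i + 3 * lam)),
            B_perm ((hp.cons r).cons q), B_perm (((hp.cons r).cons q).cons (i + 3 * lam)), B_perm hp]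
      rw [TQ_eval] at h0
      exact (mul_eq_zero.1 h0).resolve_left (pow_ne_zero _ (Complex.exp_ne_zero _))
    · rw [hcard]
      have := TQ_deg q r Z
      omega
  rw [TQ_eval, key, eval_zero, mul_zero]

theorem TT_perm {p q r : ℂ} {Z Z' : List ℂ} (h : Z.Perm Z') : TT p q r Z = TT p q r Z' := by
  unfold TT
  rw [B_perm (h.cons r), B_perm (h.cons q), B_perm ((h.cons q).cons p), B_perm ((h.cons r).cons p),
    B_perm (h.cons p), B_perm ((h.cons r).cons q), B_perm (((h.cons r).cons q).cons p), B_perm h]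

theorem cont_B {τ : Type*} [TopologicalSpace τ] (L : List (τ → ℂ)) (h : ∀ g ∈ L, Continuous g) :
    Continuous fun t => B (L.map fun g => g t) := by
  simp only [B_map]
  exact cont_BD (f := fun t (g : τ → ℂ) => g t) (X := L) h

theorem cont_TT (p : ℂ) {q r : ℂ → ℂ} (hq : Continuous q) (hr : Continuous r) (L : List (ℂ → ℂ))
    (h : ∀ g ∈ L, Continuous g) : Continuous fun t => TT p (q t) (r t) (L.map fun g => g t) := by
  have hp : Continuous fun _ : ℂ => p := continuous_const
  have k1 := cont_B ((fun _ => p) :: q :: L) (by simpa using ⟨hp, hq, h⟩)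
  have k2 := cont_B (r :: L) (by simpa using ⟨hr, h⟩)
  have k3 := cont_B ((fun _ => p) :: r :: L) (by simpa using ⟨hp, hr, h⟩)
  have k4 := cont_B (q :: L) (by simpa using ⟨hq, h⟩)
  have k5 := cont_B ((fun _ => p) :: L) (by simpa using ⟨hp, h⟩)
  have k6 := cont_B (q :: r :: L) (by simpa using ⟨hq, hr, h⟩)
  have k7 := cont_B ((fun _ => p) :: q :: r :: L) (by simpa using ⟨hp, hq, hr, h⟩)
  have k8 := cont_B L h
  simp only [List.map_cons] at k1 k2 k3 k4 k5 k6 k7 k8
  unfold TT h3
  fun_prop

/-- **The three term identity.** -/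
theorem three : ∀ (n : ℕ) (p q r : ℂ) (Z : List ℂ), Z.length = n → TT p q r Z = 0 := by
  intro n
  induction n using Nat.strong_induction_on with
  | _ n ih =>
    intro p q r Z hZ
    set f : (Fin (n + 2) → ℂ) → ℂ := fun z => TT p (z 0 / 8) (z 1 / 8)
      ((List.finRange n).map fun i => z i.succ.succ / 8) with hf
    have key := gen_ext (f := f) (g := fun _ => 0) ?_ (fun _ _ => continuous_const) ?_
      (Fin.cons (8 * q) (Fin.cons (8 * r) fun i => 8 * Z.get (i.cast hZ.symm)))
    · rw [hf] at key
      beta_reduce at key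
      rw [← key]
      have e1 : (Fin.cons (8 * q) (Fin.cons (8 * r) fun i => 8 * Z.get (i.cast hZ.symm)) :
        Fin (n + 2) → ℂ) 0 = 8 * q := rfl
      have e2 : (Fin.cons (8 * q) (Fin.cons (8 * r) fun i => 8 * Z.get (i.cast hZ.symm)) :
        Fin (n + 2) → ℂ) 1 = 8 * r := rfl
      rw [e1, e2, mul_div_cancel_left₀ _ (by norm_num : (8 : ℂ) ≠ 0),
        mul_div_cancel_left₀ _ (by norm_num : (8 : ℂ) ≠ 0)]
      congr 1
      subst hZ
      simp only [Fin.cons_succ, mul_div_cancel_left₀ _ (by norm_num : (8 : ℂ) ≠ 0), Fin.cast_eq_self]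
      exact (List.map_get_finRange Z).symm
    · intro z w
      have := cont_TT p (q := fun t => (z 0 + t * w 0) / 8) (r := fun t => (z 1 + t * w 1) / 8)
        (by fun_prop) (by fun_prop) ((List.finRange n).map fun i => fun t => (z i.succ.succ + t * w i.succ.succ) / 8)
        (by
          intro g hg
          obtain ⟨i, _, rfl⟩ := List.mem_map.1 hg
          fun_prop)
      simp only [List.map_map] at this
      exact this
    · intro z hz
      rw [hf]
      refine TT_gen ?_ ?_ p
      · have h8 : ∀ i j : Fin (n + 2), i ≠ j → sin (8 * (z i / 8 - z j / 8)) ≠ 0 := by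
          intro i j hij
          have := hz i j hij
          rwa [show 8 * (z i / 8 - z j / 8) = z i - z j by ring]
        rw [List.pairwise_cons, List.pairwise_cons, List.pairwise_map]
        refine ⟨?_, ?_, ?_⟩
        · intro a ha
          rcases List.mem_cons.1 ha with rfl | ha
          · exact h8 0 1 (by simp)
          · obtain ⟨i, _, rfl⟩ := List.mem_map.1 ha
            exact h8 0 i.succ.succ (Fin.succ_ne_zero _).symm
        · intro a ha
          obtain ⟨i, _, rfl⟩ := List.mem_map.1 ha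
          exact h8 1 i.succ.succ (by
            intro e
            have := congrArg Fin.val e
            simp at this)
        · refine (List.nodup_finRange n).imp fun {a b} hab => h8 _ _ ?_
          intro e
          exact hab (Fin.succ_injective _ (Fin.succ_injective _ e))
      · intro i hi
        refine ih _ ?_ _ _ _ _ rfl
        rw [List.length_erase_of_mem hi, List.length_map, List.length_finRange]
        have : 0 < n := by
          obtain ⟨j, _, _⟩ := List.mem_map.1 hi
          exact j.pos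
        omega

/-- **The three term identity.** -/
theorem three' (p q r : ℂ) (Z : List ℂ) :
    sin (p - q) * h3 (p - r) * h3 (q - r) * (B (p :: q :: Z) * B (r :: Z)) -
      sin (p - r) * h3 (p - q) * h3 (q - r) * (B (p :: r :: Z) * B (q :: Z)) +
      sin (q - r) * h3 (p - q) * h3 (p - r) * (B (p :: Z) * B (q :: r :: Z)) +
      sin (p - q) * sin (p - r) * sin (q - r) * (B (p :: q :: r :: Z) * B Z) = 0 :=
  three _ p q r Z rfl

end Pool.Agent.IT8
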